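import Mathlib

/-!
# The pyramid and a lower bound for its reversible pebbling number
-/

set_option autoImplicit false

namespace Pool.Agent.Thrift

/-- The nodes of the pyramid of height `h`: node `(i, j)` has height `i` and position `j`; its
children are `(i - 1, j)` and `(i - 1, j + 1)`. -/
@[ext] structure Nd (h : ℕ) where
  i : ℕ
  j : ℕ
  le : i + j ≤ h
deriving DecidableEq

variable {h : ℕ}

/-- the left child -/
def Nd.l (v : Nd h) : Nd h := ⟨v.i - 1, v.j, by have := v.le; omega⟩

/-- the right child -/
def Nd.r (v : Nd h) : Nd h :=
  ⟨v.i - 1, v.j + (if v.i = 0 then 0 else 1), by have := v.le; split_ifs <;> omega⟩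

/-- the apex -/
def root (h : ℕ) : Nd h := ⟨h, 0, le_refl _⟩

/-- the children -/
def Nd.ch (v : Nd h) : Finset (Nd h) := if v.i = 0 then ∅ else {v.l, v.r}

/-- `cone u v`: `u` is a descendant of `v` (or `v` itself) -/
def cone (u v : Nd h) : Prop := u.i ≤ v.i ∧ v.j ≤ u.j ∧ u.i + u.j ≤ v.i + v.j

instance (u v : Nd h) : Decidable (cone u v) := by unfold cone; infer_instance

theorem mem_ch {u v : Nd h} : u ∈ v.ch ↔ v.i ≠ 0 ∧ (u = v.l ∨ u = v.r) := by
  unfold Nd.ch
  split_ifs with hv
  · simp [hv]
  · simp [hv]

theorem ch_i {u v : Nd h} (hu : u ∈ v.ch) : u.i < v.i := by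
  obtain ⟨hv, hu⟩ := mem_ch.1 hu
  rcases hu with rfl | rfl
  · simp only [Nd.l]; omega
  · simp only [Nd.r]; omega

theorem ch_cone {u v : Nd h} (hu : u ∈ v.ch) : cone u v := by
  obtain ⟨hv, hu⟩ := mem_ch.1 hu
  rcases hu with rfl | rfl
  · simp only [cone, Nd.l]; omega
  · simp only [cone, Nd.r, if_neg hv]; omega

theorem cone_trans {u v w : Nd h} (h1 : cone u v) (h2 : cone v w) : cone u w := by
  unfold cone at *; omega

theorem cone_root (u : Nd h) : cone u (root h) := by
  have := u.le
  simp only [cone, root]; omega

theorem cone_cases {u v : Nd h} (huv : cone u v) :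
    u = v ∨ (v.i ≠ 0 ∧ (cone u v.l ∨ cone u v.r)) := by
  by_cases hv : v.i = 0
  · left
    unfold cone at huv
    ext <;> omega
  · by_cases he : u = v
    · left; exact he
    · right
      refine ⟨hv, ?_⟩
      simp only [cone, Nd.l, Nd.r, if_neg hv] at huv ⊢
      have : ¬ (u.i = v.i ∧ u.j = v.j) := fun hh => he (by ext; exact hh.1; exact hh.2)
      omega

/-- the map into pairs of numbers -/
def Nd.emb (v : Nd h) : Fin (h + 1) × Fin (h + 1) :=
  (⟨v.i, by have := v.le; omega⟩, ⟨v.j, by have := v.le; omega⟩)

theorem Nd.emb_inj : Function.Injective (Nd.emb (h := h)) := by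
  intro u v huv
  simp only [Nd.emb, Prod.mk.injEq, Fin.mk.injEq] at huv
  ext
  · exact huv.1
  · exact huv.2

noncomputable instance : Fintype (Nd h) := Fintype.ofInjective _ Nd.emb_inj

theorem card_Nd : Fintype.card (Nd h) ≤ (h + 1) ^ 2 := by
  have := Fintype.card_le_of_injective _ (Nd.emb_inj (h := h))
  simpa [sq] using this

/-- `Can p A v`: with pebbles on `A` one can reach `v` in the reversible pebble game with `p` more
pebbles. -/
inductive Can : ℕ → Finset (Nd h) → Nd h → Prop
  | base (p : ℕ) (A : Finset (Nd h)) (v : Nd h) : (∀ u ∈ v.ch, u ∈ A) → Can p A v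
  | step (p : ℕ) (A : Finset (Nd h)) (u v : Nd h) : Can p A u → Can p (insert u A) v →
      Can (p + 1) A v

theorem Can.mono {p p' : ℕ} {A A' : Finset (Nd h)} {v : Nd h} (hc : Can p A v) (hp : p ≤ p')
    (hA : A ⊆ A') : Can p' A' v := by
  induction hc generalizing p' A' with
  | base p A v hv => exact Can.base _ _ _ fun u hu => hA (hv u hu)
  | step p A u v _ _ ih1 ih2 =>
    obtain ⟨p'', rfl⟩ : ∃ p'', p' = p'' + 1 := ⟨p' - 1, by omega⟩
    exact Can.step _ _ u _ (ih1 (by omega) hA) (ih2 (by omega) (Finset.insert_subset_insert _ hA))

/-- Pebbling a set in the order of the heights. -/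
theorem Can.seq {p : ℕ} {v : Nd h} : ∀ (X A : Finset (Nd h)),
    (∀ u ∈ X, Can p (A ∪ X.filter (fun x => x.i < u.i)) u) → Can p (A ∪ X) v →
    Can (p + X.card) A v := by
  intro X
  induction hn : X.card generalizing X with
  | zero =>
    intro A _ h2
    rw [Finset.card_eq_zero.1 hn, Finset.union_empty] at h2
    exact h2
  | succ n ih =>
    intro A h1 h2
    have hne : X.Nonempty := Finset.card_pos.1 (by omega)
    obtain ⟨x, hx, hmin⟩ := Finset.exists_min_image X (fun x => x.i) hne
    have e1 : X.filter (fun y => y.i < x.i) = ∅ := by
      rw [Finset.filter_eq_empty_iff]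
      intro y hy
      have := hmin y hy
      omega
    have hcx : Can p A x := by
      have := h1 x hx
      rwa [e1, Finset.union_empty] at this
    have h3 : Can (p + n) (insert x A) v := by
      refine ih (X.erase x) (by rw [Finset.card_erase_of_mem hx]; omega) (insert x A) ?_ ?_
      · intro u hu
        refine (h1 u (Finset.mem_of_mem_erase hu)).mono le_rfl ?_
        intro y hy
        rw [Finset.mem_union] at hy ⊢
        rcases hy with hy | hy
        · left; exact Finset.mem_insert_of_mem hy
        · rw [Finset.mem_filter] at hy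
          by_cases hyx : y = x
          · left; rw [hyx]; exact Finset.mem_insert_self _ _
          · right
            rw [Finset.mem_filter]
            exact ⟨Finset.mem_erase.2 ⟨hyx, hy.1⟩, hy.2⟩
      · refine h2.mono le_rfl ?_
        intro y hy
        rw [Finset.mem_union] at hy ⊢
        rcases hy with hy | hy
        · left; exact Finset.mem_insert_of_mem hy
        · by_cases hyx : y = x
          · left; rw [hyx]; exact Finset.mem_insert_self _ _
          · right; exact Finset.mem_erase.2 ⟨hyx, hy⟩
    have := Can.step (p + n) A x v (hcx.mono (by omega) (Finset.Subset.refl _)) h3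
    rwa [Nat.add_assoc] at this

/-- There is a path from the bottom to `c` which avoids `A` below `c`. -/
def Free (A : Finset (Nd h)) (c : Nd h) : Prop :=
  ∃ π : ℕ → ℕ, π c.i = c.j ∧ (∀ t < c.i, π t = π (t + 1) ∨ π t = π (t + 1) + 1) ∧
    ∀ u ∈ A, u.i < c.i → u.j ≠ π u.i

theorem path_mono {π : ℕ → ℕ} {n : ℕ} (hπ : ∀ t < n, π t = π (t + 1) ∨ π t = π (t + 1) + 1)
    {s t : ℕ} (hst : s ≤ t) (ht : t ≤ n) : π t ≤ π s ∧ s + π s ≤ t + π t := by
  induction t, hst using Nat.le_induction with
  | base => exact ⟨le_rfl, le_rfl⟩
  | succ t hst ih =>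
    have h1 := ih (by omega)
    have h2 := hπ t (by omega)
    omega

theorem can_lower {p : ℕ} {A : Finset (Nd h)} {c : Nd h} (hc : Can p A c) :
    Free A c → c.i ≤ p + (A.filter (fun u => cone u c)).card := by
  induction hc with
  | base p A v hv =>
    rintro ⟨π, h1, h2, h3⟩
    by_cases hv0 : v.i = 0
    · omega
    · exfalso
      obtain ⟨t, ht⟩ : ∃ t, v.i = t + 1 := ⟨v.i - 1, by omega⟩
      rcases h2 t (by omega) with h4 | h4
      · have hl : v.l ∈ v.ch := mem_ch.2 ⟨hv0, Or.inl rfl⟩
        refine h3 _ (hv _ hl) (ch_i hl) ?_
        have e1 : v.l.i = t := by simp only [Nd.l]; omega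
        rw [e1, h4, ← ht, h1]
        rfl
      · have hl : v.r ∈ v.ch := mem_ch.2 ⟨hv0, Or.inr rfl⟩
        refine h3 _ (hv _ hl) (ch_i hl) ?_
        have e1 : v.r.i = t := by simp only [Nd.r]; omega
        rw [e1, h4, ← ht, h1]
        simp [Nd.r, hv0]
  | step p A u c _ _ ih1 ih2 =>
    intro hF
    by_cases hF2 : Free (insert u A) c
    · have h1 := ih2 hF2
      have h2 : ((insert u A).filter (fun u => cone u c)).card ≤
          (A.filter (fun u => cone u c)).card + 1 := by
        rw [Finset.filter_insert]
        split_ifs
        · exact Finset.card_insert_le _ _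
        · omega
      omega
    · obtain ⟨π, h1, h2, h3⟩ := hF
      have hu : u.i < c.i ∧ u.j = π u.i := by
        by_contra hcon
        apply hF2
        refine ⟨π, h1, h2, ?_⟩
        intro x hx hxi
        rcases Finset.mem_insert.1 hx with rfl | hx
        · intro hh; exact hcon ⟨hxi, hh⟩
        · exact h3 x hx hxi
      have hFu : Free A u :=
        ⟨π, hu.2.symm, fun t ht => h2 t (by omega), fun x hx hxi => h3 x hx (by omega)⟩
      have h4 := ih1 hFu
      -- the hanging paths
      have hang : ∀ t, u.i ≤ t → t < c.i → ∃ α ∈ A, α.i ≤ t ∧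
          ((π t = π (t + 1) ∧ α.j + α.i = π (t + 1) + 1 + t) ∨
            (π t = π (t + 1) + 1 ∧ α.j = π (t + 1))) := by
        intro t ht1 ht2
        by_contra hcon
        push Not at hcon
        apply hF2
        have hm := path_mono h2 ht1 (by omega)
        rcases h2 t ht2 with h5 | h5
        · refine ⟨fun s => if s ≤ t then π (t + 1) + 1 + (t - s) else π s, ?_, ?_, ?_⟩
          · simp only; rw [if_neg (by omega), h1]
          · intro s hs
            simp only
            by_cases hst : s + 1 ≤ t
            · rw [if_pos (by omega), if_pos hst]; omega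
            · by_cases hst2 : s = t
              · subst hst2; rw [if_pos le_rfl, if_neg (by omega)]; omega
              · rw [if_neg (by omega), if_neg (by omega)]; exact h2 s hs
          · intro x hx hxi
            simp only
            by_cases hxt : x.i ≤ t
            · rw [if_pos hxt]
              rcases Finset.mem_insert.1 hx with rfl | hx
              · omega
              · have := (hcon x hx hxt).1 h5
                omega
            · rw [if_neg hxt]
              rcases Finset.mem_insert.1 hx with rfl | hx
              · omega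
              · exact h3 x hx hxi
        · refine ⟨fun s => if s ≤ t then π (t + 1) else π s, ?_, ?_, ?_⟩
          · simp only; rw [if_neg (by omega), h1]
          · intro s hs
            simp only
            by_cases hst : s + 1 ≤ t
            · rw [if_pos (by omega), if_pos hst]; omega
            · by_cases hst2 : s = t
              · subst hst2; rw [if_pos le_rfl, if_neg (by omega)]; omega
              · rw [if_neg (by omega), if_neg (by omega)]; exact h2 s hs
          · intro x hx hxi
            simp only
            by_cases hxt : x.i ≤ t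
            · rw [if_pos hxt]
              rcases Finset.mem_insert.1 hx with rfl | hx
              · omega
              · have := (hcon x hx hxt).2 h5
                omega
            · rw [if_neg hxt]
              rcases Finset.mem_insert.1 hx with rfl | hx
              · omega
              · exact h3 x hx hxi
      have : Nonempty (Nd h) := ⟨u⟩
      choose! α hα using hang
      have h5 : (Finset.Ico u.i c.i).card ≤ ((A.filter (fun x => cone x c)) \
          (A.filter (fun x => cone x u))).card := by
        refine Finset.card_le_card_of_injOn α ?_ ?_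
        · intro t ht
          rw [Finset.coe_Ico, Set.mem_Ico] at ht
          obtain ⟨a1, a2, a3⟩ := hα t ht.1 ht.2
          have m1 := path_mono h2 (show t ≤ c.i by omega) le_rfl
          have m2 := path_mono h2 (show t + 1 ≤ c.i by omega) le_rfl
          have m3 := path_mono h2 ht.1 (by omega)
          have hu2 := hu.2
          rw [Finset.mem_coe, Finset.mem_sdiff, Finset.mem_filter, Finset.mem_filter]
          refine ⟨⟨a1, ?_⟩, fun hh => ?_⟩
          · unfold cone
            omega
          · have := hh.2
            unfold cone at this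
            omega
        · intro t ht t' ht' htt
          rw [Finset.coe_Ico, Set.mem_Ico] at ht ht'
          obtain ⟨a1, a2, a3⟩ := hα t ht.1 ht.2
          obtain ⟨b1, b2, b3⟩ := hα t' ht'.1 ht'.2
          rw [htt] at a2 a3
          rcases lt_trichotomy t t' with hlt | heq | hlt
          · exfalso
            have m1 := path_mono h2 (show t + 1 ≤ t' by omega) (by omega)
            omega
          · exact heq
          · exfalso
            have m1 := path_mono h2 (show t' + 1 ≤ t by omega) (by omega)
            omega
      have h6 : (A.filter (fun x => cone x u)) ⊆ (A.filter (fun x => cone x c)) := by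
        intro x hx
        rw [Finset.mem_filter] at hx ⊢
        refine ⟨hx.1, cone_trans hx.2 ?_⟩
        have m1 := path_mono h2 (show u.i ≤ c.i by omega) le_rfl
        have hu2 := hu.2
        unfold cone
        omega
      have h7 := Finset.card_sdiff_add_card_eq_card h6
      rw [Nat.card_Ico] at h5
      omega

theorem can_root {p : ℕ} (hc : Can p ∅ (root h)) : h ≤ p := by
  have := can_lower hc ⟨fun _ => 0, rfl, fun t _ => Or.inl rfl, by simp⟩
  simpa [root] using this

end Pool.Agent.Thrift
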