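import Pool.Agent.Thrift.Rec

/-!
# Counting labelings
-/

set_option autoImplicit false

namespace Pool.Agent.Thrift

open Finset

theorem card_small {α : Type} [Fintype α] [DecidableEq α] (d : ℕ) :
    ((univ : Finset (Finset α)).filter (fun s => s.card ≤ d)).card ≤ (Fintype.card α + 1) ^ d := by
  classical
  have h1 : (univ : Finset (Finset α)).filter (fun s => s.card ≤ d) ⊆
      (univ : Finset (Fin d → Option α)).image (fun f => univ.filter (fun x => ∃ i, f i = some x)) := by
    intro s hs
    rw [mem_filter] at hs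
    rw [mem_image]
    refine ⟨fun i => if hi : i.val < s.card then some (s.equivFin.symm ⟨i.val, hi⟩).1 else none,
      mem_univ _, ?_⟩
    ext x
    rw [mem_filter]
    constructor
    · rintro ⟨-, i, hi⟩
      dsimp only at hi
      split_ifs at hi with h5
      rw [Option.some.injEq] at hi
      rw [← hi]
      exact (s.equivFin.symm ⟨i.val, h5⟩).2
    · intro hx
      refine ⟨mem_univ _, ⟨(s.equivFin ⟨x, hx⟩).val, by have := (s.equivFin ⟨x, hx⟩).isLt; omega⟩, ?_⟩
      dsimp only
      rw [dif_pos (s.equivFin ⟨x, hx⟩).isLt]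
      simp
  calc _ ≤ _ := card_le_card h1
    _ ≤ (univ : Finset (Fin d → Option α)).card := card_image_le
    _ = (Fintype.card α + 1) ^ d := by
      rw [card_univ, Fintype.card_fun, Fintype.card_option, Fintype.card_fin]

theorem card_fix {V K : Type} [Fintype V] [DecidableEq V] [Fintype K] (S : Finset V)
    (x0 : K) (s : Finset (V → K)) (hs : ∀ b, b ∈ s ↔ ∀ u ∈ S, b u = x0) :
    s.card = Fintype.card K ^ (Fintype.card V - S.card) := by
  have h1 : s = Fintype.piFinset (fun u => if u ∈ S then {x0} else univ) := by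
    ext b
    rw [hs, Fintype.mem_piFinset]
    constructor
    · intro hb u
      split_ifs with hu
      · rw [mem_singleton]; exact hb u hu
      · exact mem_univ _
    · intro hb u hu
      have := hb u
      rw [if_pos hu, mem_singleton] at this
      exact this
  rw [h1, Fintype.card_piFinset]
  have h2 : ∀ u : V, (if u ∈ S then ({x0} : Finset K) else univ).card =
      if u ∈ S then 1 else Fintype.card K := by
    intro u
    split_ifs
    · simp
    · simp
  rw [prod_congr rfl (fun u _ => h2 u), prod_ite, prod_const_one, one_mul, prod_const]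
  congr 1
  rw [filter_not, filter_mem_eq_inter, univ_inter, card_sdiff_of_subset (subset_univ _),
    card_univ]

variable {h : ℕ} {K Q : Type}

/-- the elements as a sum -/
def El.equiv : El h K ≃ Fin (h + 2) ⊕ (Nd h × K) where
  toFun x := match x with
    | .c j => Sum.inl j
    | .val v x => Sum.inr (v, x)
  invFun x := match x with
    | Sum.inl j => .c j
    | Sum.inr (v, x) => .val v x
  left_inv x := by cases x <;> rfl
  right_inv x := by rcases x with j | ⟨v, x⟩ <;> rfl

noncomputable instance [Fintype K] : Fintype (El h K) := Fintype.ofEquiv _ El.equiv.symm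

theorem card_El [Fintype K] :
    Fintype.card (El h K) = h + 2 + Fintype.card (Nd h) * Fintype.card K := by
  rw [Fintype.card_congr El.equiv, Fintype.card_sum, Fintype.card_prod, Fintype.card_fin]

theorem main_count [Fintype K] [Fintype Q] (M : NBP (El h K) Q) {x0 : K} {w b r : ℕ}
    (hM : ∀ op L, M.Acc op L → Gen op El.g (.val (root h) x0))
    (hw : ∀ op L, M.Acc op L → (wrong op El.g L).ncard ≤ w)
    (hacc : ∀ a : Nd h → K, a (root h) = x0 → ∃ L, M.Acc (opA a) L ∧ L.length ≤ 2 ^ r)
    (hbr : 2 * b * r < h) :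
    Fintype.card K ^ b ≤ (Fintype.card (Nd h) * Fintype.card K + 1) ^ (2 * w) *
      (Fintype.card Q ^ 2 * (Fintype.card (El h K) ^ 2 + 1) ^ w *
        (Fintype.card (Nd h)).choose (b + 1)) := by
  classical
  have hdata : ∀ a : Nd h → K, a (root h) = x0 → ∃ (q q' f : Q) (E' : Finset (Nd h))
      (R : Finset (El h K × El h K)) (L1 L2 L3 : List (Lab (El h K))),
      M.Run M.start L1 q ∧ M.Run q L2 q' ∧ M.Run q' L3 f ∧ M.acc f ∧
      (∀ x y z, some (x, y, z) ∈ L1 ++ L2 ++ L3 → opA a x y = z) ∧
      E' ⊆ EE a L2 ∧ E'.card = b + 1 ∧ R.card ≤ w ∧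
      (R : Set (El h K × El h K)) = wrong (opA a) El.g (L1 ++ L2 ++ L3) := by
    intro a ha
    obtain ⟨L, hL, hlen⟩ := hacc a ha
    obtain ⟨L2, ⟨L1, L3, rfl⟩, h2⟩ := exists_window M hM hL hlen hbr
    obtain ⟨E', hE1, hE2⟩ := exists_subset_card_eq (Nat.succ_le_of_lt h2)
    obtain ⟨⟨f, hrun, hf⟩, hcons⟩ := hL
    obtain ⟨q', h12, h3⟩ := (M.run_append).1 hrun
    obtain ⟨q, h1, h2'⟩ := (M.run_append).1 h12
    have hww := hw (opA a) (L1 ++ L2 ++ L3) ⟨⟨f, hrun, hf⟩, hcons⟩
    have hfin : (wrong (opA a) El.g (L1 ++ L2 ++ L3)).Finite := Set.toFinite _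
    refine ⟨q, q', f, E', hfin.toFinset, L1, L2, L3, h1, h2', h3, hf, hcons, hE1, hE2, ?_, ?_⟩
    · rwa [← Set.ncard_eq_toFinset_card _ hfin]
    · exact hfin.coe_toFinset
  have : Nonempty Q := ⟨M.start⟩
  choose! dq dq' df dE dR dL1 dL2 dL3 hd using hdata
  set 𝓛 : Finset (Nd h → K) := univ.filter (fun b => ∀ u ∈ ({root h} : Finset (Nd h)), b u = x0)
    with h𝓛
  have mem𝓛 : ∀ a, a ∈ 𝓛 ↔ a (root h) = x0 := by intro a; simp [h𝓛]
  let Φ : (Nd h → K) → Q × Q × Finset (El h K × El h K) × (Σ _ : Finset (Nd h), (Nd h → K)) :=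
    fun a => (dq a, dq' a, dR a, ⟨dE a, fun u => if u ∈ dE a then x0 else a u⟩)
  let T : Finset (Q × Q × Finset (El h K × El h K) × (Σ _ : Finset (Nd h), (Nd h → K))) :=
    univ ×ˢ univ ×ˢ ((univ : Finset (Finset (El h K × El h K))).filter (fun s => s.card ≤ w)) ×ˢ
      ((powersetCard (b + 1) (univ : Finset (Nd h))).sigma
        (fun E' => (univ : Finset (Nd h → K)).filter (fun b => ∀ u ∈ E', b u = x0)))
  have hT : ∀ a ∈ 𝓛, Φ a ∈ T := by
    intro a ha
    obtain ⟨-, -, -, -, -, -, h7, h8, -⟩ := hd a ((mem𝓛 a).1 ha)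
    simp only [Φ, T, mem_product, mem_univ, true_and, mem_filter, mem_sigma, mem_powersetCard,
      subset_univ]
    refine ⟨h8, h7, fun u hu => ?_⟩
    rw [if_pos hu]
  have hfib : ∀ t ∈ T, (𝓛.filter (fun a => Φ a = t)).card ≤
      (Fintype.card (Nd h) * Fintype.card K + 1) ^ (2 * w) := by
    intro t _
    rcases (𝓛.filter (fun a => Φ a = t)).eq_empty_or_nonempty with he | ⟨a0, ha0⟩
    · rw [he]; simp
    · rw [← Fintype.card_prod]
      refine le_trans ?_ (card_small (α := Nd h × K) (2 * w))
      rw [mem_filter, mem𝓛] at ha0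
      obtain ⟨ha0, hΦ0⟩ := ha0
      let S : (Nd h → K) → Finset (Nd h) := fun a => (dE a0).filter (fun u => a u ≠ a0 u)
      have hoff : ∀ a ∈ 𝓛.filter (fun a => Φ a = t), dq a = dq a0 ∧ dq' a = dq' a0 ∧
          dR a = dR a0 ∧ dE a = dE a0 ∧ ∀ u, u ∉ dE a0 → a u = a0 u := by
        intro a ha
        rw [mem_filter] at ha
        have h5 := ha.2.trans hΦ0.symm
        simp only [Φ, Prod.mk.injEq, Sigma.mk.injEq, heq_eq_eq] at h5
        obtain ⟨e1, e2, e3, e4, e5⟩ := h5
        refine ⟨e1, e2, e3, e4, fun u hu => ?_⟩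
        have := congrFun e5 u
        rwa [if_neg hu, if_neg (e4 ▸ hu)] at this
      refine card_le_card_of_injOn (fun a => (S a).image (fun u => (u, a u))) ?_ ?_
      · intro a ha
        rw [mem_coe] at ha
        obtain ⟨e1, e2, e3, e4, e5⟩ := hoff a ha
        rw [mem_filter, mem𝓛] at ha
        rw [mem_coe, mem_filter]
        refine ⟨mem_univ _, card_image_le.trans ?_⟩
        obtain ⟨a1, a2, a3, a4, a5, a6, a7, a8, a9⟩ := hd a ha.1
        obtain ⟨b1, b2, b3, b4, b5, b6, b7, b8, b9⟩ := hd a0 ha0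
        refine swap M hw (a := a0) (a' := a) b1 b3 b4 (L2' := dL2 a) ?_ b5 a5 ?_ (E' := dE a0) ?_ ?_
          (S a) ?_
        · rw [← e1, ← e2]; exact a2
        · rw [← b9, ← a9, e3]
        · rw [← e4]; exact a6
        · intro u hu
          exact (e5 u hu).symm
        · intro u hu
          simp only [S, mem_filter] at hu
          exact ⟨hu.1, fun hh => hu.2 hh.symm⟩
      · intro a ha a' ha' haa
        rw [mem_coe] at ha ha'
        obtain ⟨-, -, -, -, e5⟩ := hoff a ha
        obtain ⟨-, -, -, -, f5⟩ := hoff a' ha'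
        have hkey : ∀ (a a' : Nd h → K), (S a).image (fun u => (u, a u)) =
            (S a').image (fun u => (u, a' u)) → ∀ u ∈ dE a0, a u ≠ a0 u → a' u = a u := by
          intro a a' haa u hu hne
          have h5 : (u, a u) ∈ (S a).image (fun u => (u, a u)) :=
            mem_image.2 ⟨u, mem_filter.2 ⟨hu, hne⟩, rfl⟩
          rw [haa, mem_image] at h5
          obtain ⟨u', -, h6⟩ := h5
          rw [Prod.mk.injEq] at h6
          rw [← h6.1, h6.2, h6.1]
        funext u
        by_cases hu : u ∈ dE a0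
        · by_cases hne : a u = a0 u
          · by_cases hne' : a' u = a0 u
            · rw [hne, hne']
            · exact hkey a' a haa.symm u hu hne'
          · exact (hkey a a' haa u hu hne).symm
        · rw [e5 u hu, f5 u hu]
  have hcount := card_le_mul_card_image_of_maps_to hT _ hfib
  have hcT : T.card ≤ Fintype.card Q ^ 2 * (Fintype.card (El h K) ^ 2 + 1) ^ w *
      ((Fintype.card (Nd h)).choose (b + 1) * Fintype.card K ^ (Fintype.card (Nd h) - (b + 1))) := by
    simp only [T, card_product, card_univ]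
    rw [card_sigma]
    have e1 : ∑ E' ∈ powersetCard (b + 1) (univ : Finset (Nd h)),
        ((univ : Finset (Nd h → K)).filter (fun b => ∀ u ∈ E', b u = x0)).card =
        (Fintype.card (Nd h)).choose (b + 1) *
          Fintype.card K ^ (Fintype.card (Nd h) - (b + 1)) := by
      rw [sum_congr rfl (g := fun _ => Fintype.card K ^ (Fintype.card (Nd h) - (b + 1)))]
      · rw [sum_const, card_powersetCard, card_univ, smul_eq_mul]
      · intro E' hE'
        rw [card_fix E' x0 _ (by intro b; simp), (mem_powersetCard.1 hE').2]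
    rw [e1]
    have e2 := card_small (α := El h K × El h K) w
    rw [Fintype.card_prod, ← sq] at e2
    calc _ = Fintype.card Q ^ 2 * ((univ : Finset (Finset (El h K × El h K))).filter
          (fun s => s.card ≤ w)).card * ((Fintype.card (Nd h)).choose (b + 1) *
          Fintype.card K ^ (Fintype.card (Nd h) - (b + 1))) := by ring
      _ ≤ _ := Nat.mul_le_mul_right _ (Nat.mul_le_mul_left _ e2)
  have hc𝓛 : 𝓛.card = Fintype.card K ^ (Fintype.card (Nd h) - 1) := by
    rw [card_fix {root h} x0 𝓛 (by intro b; simp [h𝓛]), card_singleton]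
  have hkpos : 0 < Fintype.card K := Fintype.card_pos_iff.2 ⟨x0⟩
  have hbn : b + 1 ≤ Fintype.card (Nd h) := by
    have ha : (fun _ => x0 : Nd h → K) (root h) = x0 := rfl
    obtain ⟨-, -, -, -, -, -, h7, -, -⟩ := hd (fun _ => x0) ha
    rw [← h7]
    exact card_le_univ _
  rw [hc𝓛] at hcount
  have hfinal := hcount.trans (Nat.mul_le_mul_left _ hcT)
  have e3 : Fintype.card (Nd h) - 1 = b + (Fintype.card (Nd h) - (b + 1)) := by omega
  rw [e3, pow_add] at hfinal
  refine Nat.le_of_mul_le_mul_right ?_ (pow_pos hkpos (Fintype.card (Nd h) - (b + 1)))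
  refine hfinal.trans (le_of_eq ?_)
  ring

end Pool.Agent.Thrift
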