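import Pool.Agent.Thrift.Transfer

/-!
# The lower bound
-/

set_option autoImplicit false

namespace Pool.Agent.Thrift

theorem pow_le_factorial (n : ℕ) : n ^ n ≤ 3 ^ n * n.factorial := by
  have h1 : ((n : ℝ) ^ n / n.factorial) ≤ Real.exp n :=
    Real.pow_div_factorial_le_exp (n : ℝ) (Nat.cast_nonneg n) n
  have h2 : Real.exp (n : ℝ) ≤ 3 ^ n := by
    have : Real.exp (n : ℝ) = Real.exp 1 ^ n := by rw [← Real.exp_nat_mul, mul_one]
    rw [this]
    exact pow_le_pow_left₀ (Real.exp_pos 1).le (by linarith [Real.exp_one_lt_d9]) n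
  have h3 : (0 : ℝ) < n.factorial := by exact_mod_cast Nat.factorial_pos n
  have h4 : ((n : ℝ) ^ n) ≤ 3 ^ n * n.factorial := by
    rw [div_le_iff₀ h3] at h1
    exact h1.trans (mul_le_mul_of_nonneg_right h2 h3.le)
  exact_mod_cast h4

theorem main {X Q : Type} [Fintype X] [Fintype Q] {g t : X} (hgt : g ≠ t) (M : NBP X Q)
    (hM : M.Solves g t) (w s τ : ℕ) (hτ : 1 ≤ τ) (hs : Fintype.card Q ≤ 2 ^ s)
    (hT : Fintype.card Q ≤ 2 ^ τ ∨
      ∀ op : X → X → X, Gen op g t → ∃ L, M.Acc op L ∧ L.length ≤ 2 ^ τ)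
    (hw : ∀ op L, M.Acc op L → (wrong op g L).ncard ≤ w) :
    Fintype.card X ≤
      10 ^ 6 * τ ^ 4 * (s + (w + 1) * (Nat.log 2 (Fintype.card X) + 1)) ^ 3 := by
  by_contra hcon
  push Not at hcon
  set m := Fintype.card X with hm
  set l := Nat.log 2 m + 1 with hl
  have hml : m < 2 ^ l := Nat.lt_pow_succ_log_self (by norm_num) m
  have hl1 : 1 ≤ l := by omega
  set Z := 4 * w * l + 2 * s with hZ
  set b := Z + l with hb
  set h := 2 * b * τ + 1 with hh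
  set k := 48 * τ * h with hk
  have hb1 : 1 ≤ b := by omega
  have hh1 : 1 ≤ h := by omega
  have hkpos : 0 < k := by positivity
  have : NeZero k := ⟨hkpos.ne'⟩
  set n := Fintype.card (Nd h) with hn
  have hn1 : n ≤ (h + 1) ^ 2 := card_Nd
  have hn0 : 0 < n := Fintype.card_pos_iff.2 ⟨root h⟩
  have hcE : Fintype.card (El h (Fin k)) = h + 2 + n * k := by rw [card_El, Fintype.card_fin]
  have hbs : b ≤ 4 * (s + (w + 1) * l) := by
    rw [hb, hZ]; nlinarith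
  have hb_h : h ≤ 3 * b * τ := by
    rw [hh]
    have : 1 ≤ b * τ := Nat.mul_pos hb1 hτ
    nlinarith
  have hEm : Fintype.card (El h (Fin k)) ≤ m := by
    have e1 : (h + 1) ^ 2 ≤ 4 * h ^ 2 := by nlinarith
    have e2 : h + 2 ≤ 3 * (τ * h ^ 3) := by
      have : 1 * h ≤ τ * h ^ 3 := by
        calc 1 * h ≤ τ * h := Nat.mul_le_mul_right _ hτ
          _ ≤ τ * h ^ 3 := Nat.mul_le_mul_left _ (Nat.le_self_pow (by norm_num) h)
      omega
    have e3 : n * k ≤ 192 * (τ * h ^ 3) := by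
      calc n * k ≤ (4 * h ^ 2) * k := Nat.mul_le_mul_right _ (hn1.trans e1)
        _ = 192 * (τ * h ^ 3) := by rw [hk]; ring
    have e4 : τ * h ^ 3 ≤ 27 * 64 * (τ ^ 4 * (s + (w + 1) * l) ^ 3) := by
      calc τ * h ^ 3 ≤ τ * (3 * b * τ) ^ 3 := Nat.mul_le_mul_left _ (Nat.pow_le_pow_left hb_h 3)
        _ = 27 * τ ^ 4 * b ^ 3 := by ring
        _ ≤ 27 * τ ^ 4 * (4 * (s + (w + 1) * l)) ^ 3 :=
          Nat.mul_le_mul_left _ (Nat.pow_le_pow_left hbs 3)
        _ = _ := by ring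
    rw [hcE]
    have e5 : h + 2 + n * k ≤ 195 * (27 * 64 * (τ ^ 4 * (s + (w + 1) * l) ^ 3)) := by
      calc h + 2 + n * k ≤ 195 * (τ * h ^ 3) := by omega
        _ ≤ _ := Nat.mul_le_mul_left _ e4
    have e6 : 195 * (27 * 64 * (τ ^ 4 * (s + (w + 1) * l) ^ 3)) ≤
        10 ^ 6 * τ ^ 4 * (s + (w + 1) * l) ^ 3 := by
      rw [mul_assoc (10 ^ 6), ← mul_assoc 195]
      exact Nat.mul_le_mul_right _ (by norm_num)
    omega
  obtain ⟨e, he, heg, het⟩ := exists_emb (Y := El h (Fin k)) hEm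
    (g := El.g) (t := .val (root h) 0) (by intro h5; cases h5) hgt
  have hM' : ∀ op L, (M.restrict e El.g).Acc op L → Gen op El.g (.val (root h) (0 : Fin k)) := by
    intro op L hL
    obtain ⟨L', h1, -⟩ := restrict_acc he hL
    have h2 := (hM _).1 ⟨L', h1⟩
    rw [← heg, ← het, gen_extOp he] at h2
    exact h2
  have hw' : ∀ op L, (M.restrict e El.g).Acc op L → (wrong op El.g L).ncard ≤ w := by
    intro op L hL
    obtain ⟨L', h1, h2⟩ := restrict_acc he hL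
    refine (restrict_wrong he h2).trans ?_
    rw [heg] at h1 ⊢
    exact hw _ _ h1
  have hacc : ∀ a : Nd h → Fin k, a (root h) = 0 →
      ∃ L, (M.restrict e El.g).Acc (opA a) L ∧ L.length ≤ 2 ^ τ := by
    intro a ha
    have h1 : Gen (extOp e (e El.g) (opA a)) (e El.g) (e (.val (root h) 0)) := by
      rw [gen_extOp he, gen_opA]
      exact ⟨ha.symm, trivial⟩
    have h2 : ∃ L, M.Acc (extOp e (e El.g) (opA a)) L ∧ L.length ≤ 2 ^ τ := by
      rw [heg] at h1 ⊢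
      rw [het] at h1
      rcases hT with hT | hT
      · obtain ⟨L, hL⟩ := (hM _).2 h1
        obtain ⟨L', h3, h4⟩ := hL.shorten
        exact ⟨L', h3, h4.trans hT⟩
      · exact hT _ h1
    obtain ⟨L, h3, h4⟩ := h2
    obtain ⟨L', h5, h6⟩ := acc_restrict he h3
    exact ⟨L', h5, by omega⟩
  have hmain := main_count (M.restrict e El.g) hM' hw' hacc (b := b) (by omega)
  rw [← hn, Fintype.card_fin, hcE] at hmain
  rw [hcE] at hEm
  -- the estimates
  have f1 : (n * k + 1) ^ (2 * w) ≤ 2 ^ (l * (2 * w)) := by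
    rw [pow_mul 2 l]
    exact Nat.pow_le_pow_left (by omega) _
  have f2 : Fintype.card Q ^ 2 ≤ 2 ^ (s * 2) := by
    rw [pow_mul]
    exact Nat.pow_le_pow_left hs _
  have f3 : ((h + 2 + n * k) ^ 2 + 1) ^ w ≤ 2 ^ (2 * l * w) := by
    rw [pow_mul 2 (2 * l)]
    refine Nat.pow_le_pow_left ?_ _
    obtain ⟨p, hp⟩ : ∃ p, 2 ^ l = p + 1 := ⟨2 ^ l - 1, by omega⟩
    have e7 : (2 : ℕ) ^ (2 * l) = (p + 1) ^ 2 := by rw [mul_comm, pow_mul, hp]
    have e8 : 1 ≤ p := by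
      have : 2 ^ 1 ≤ 2 ^ l := Nat.pow_le_pow_right (by norm_num) hl1
      omega
    rw [e7]
    have e9 : (h + 2 + n * k) ^ 2 ≤ p ^ 2 := Nat.pow_le_pow_left (by omega) _
    nlinarith
  have f4 : k ^ b ≤ 2 ^ Z * n.choose (b + 1) := by
    refine hmain.trans ?_
    calc (n * k + 1) ^ (2 * w) * (Fintype.card Q ^ 2 * ((h + 2 + n * k) ^ 2 + 1) ^ w *
          n.choose (b + 1))
        ≤ 2 ^ (l * (2 * w)) * (2 ^ (s * 2) * 2 ^ (2 * l * w) * n.choose (b + 1)) :=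
          Nat.mul_le_mul f1 (Nat.mul_le_mul_right _ (Nat.mul_le_mul f2 f3))
      _ = 2 ^ Z * n.choose (b + 1) := by
          rw [← mul_assoc, ← mul_assoc, ← pow_add, ← pow_add]
          congr 2
          rw [hZ]; ring
  have f5 : n.choose (b + 1) * (b + 1).factorial ≤ n ^ (b + 1) := by
    rw [mul_comm, ← Nat.descFactorial_eq_factorial_mul_choose]
    exact Nat.descFactorial_le_pow n (b + 1)
  have f6 := pow_le_factorial (b + 1)
  have f7 : k ^ b * (b + 1) ^ (b + 1) ≤ 2 ^ Z * (3 * n) ^ (b + 1) := by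
    calc k ^ b * (b + 1) ^ (b + 1) ≤ (2 ^ Z * n.choose (b + 1)) * (3 ^ (b + 1) * (b + 1).factorial) :=
          Nat.mul_le_mul f4 f6
      _ = 2 ^ Z * 3 ^ (b + 1) * (n.choose (b + 1) * (b + 1).factorial) := by ring
      _ ≤ 2 ^ Z * 3 ^ (b + 1) * n ^ (b + 1) := Nat.mul_le_mul_left _ f5
      _ = _ := by rw [mul_pow]; ring
  have f8 : 6 * n ≤ k * (b + 1) := by
    have e1 : (h + 1) ^ 2 ≤ 4 * h ^ 2 := by nlinarith
    have e2 : h ≤ 2 * (τ * (b + 1)) := by rw [hh]; nlinarith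
    calc 6 * n ≤ 6 * (4 * h ^ 2) := Nat.mul_le_mul_left _ (hn1.trans e1)
      _ = 24 * h * h := by ring
      _ ≤ 24 * h * (2 * (τ * (b + 1))) := Nat.mul_le_mul_left _ e2
      _ = k * (b + 1) := by rw [hk]; ring
  have f9 : 2 ^ (b + 1) * (k ^ b * (b + 1) ^ (b + 1)) ≤
      (2 ^ Z * k) * (k ^ b * (b + 1) ^ (b + 1)) := by
    calc 2 ^ (b + 1) * (k ^ b * (b + 1) ^ (b + 1)) ≤ 2 ^ (b + 1) * (2 ^ Z * (3 * n) ^ (b + 1)) :=
          Nat.mul_le_mul_left _ f7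
      _ = 2 ^ Z * (6 * n) ^ (b + 1) := by
          rw [show 6 * n = 2 * (3 * n) by ring, mul_pow 2 (3 * n)]; ring
      _ ≤ 2 ^ Z * (k * (b + 1)) ^ (b + 1) := Nat.mul_le_mul_left _ (Nat.pow_le_pow_left f8 _)
      _ = _ := by rw [mul_pow, pow_succ k b]; ring
  have f10 : 2 ^ (b + 1) ≤ 2 ^ Z * k := Nat.le_of_mul_le_mul_right f9 (by positivity)
  have f11 : k < 2 ^ l := by
    have : k ≤ n * k := Nat.le_mul_of_pos_left k hn0
    omega
  have f12 : 2 ^ (b + 1) < 2 ^ (Z + l) := by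
    rw [pow_add 2 Z]
    exact lt_of_le_of_lt f10 (Nat.mul_lt_mul_of_pos_left f11 (by positivity))
  have := (Nat.pow_lt_pow_iff_right (by norm_num : 1 < 2)).1 f12
  omega

end Pool.Agent.Thrift
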