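import Pool.Agent.Thrift.Count

/-!
# Short computations, and passing to an arbitrary set of elements
-/

set_option autoImplicit false

namespace Pool.Agent.Thrift

variable {X Y Q : Type}

theorem NBP.shorten [Fintype Q] (M : NBP X Q) {q q' : Q} {L : List (Lab X)}
    (hL : M.Run q L q') : ∃ L', M.Run q L' q' ∧ L'.length ≤ Fintype.card Q ∧ ∀ ℓ ∈ L', ℓ ∈ L := by
  classical
  have hex : ∃ n : ℕ, ∃ L' : List (Lab X), L'.length = n ∧ M.Run q L' q' ∧ ∀ ℓ ∈ L', ℓ ∈ L :=
    ⟨L.length, L, rfl, hL, fun _ h => h⟩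
  obtain ⟨L', hlen, hrun, hsub⟩ := Nat.find_spec hex
  refine ⟨L', hrun, ?_, hsub⟩
  have hst : ∀ i : ℕ, ∃ s, M.Run q (L'.take i) s ∧ M.Run s (L'.drop i) q' := by
    intro i
    rw [← M.run_append, List.take_append_drop]
    exact hrun
  choose s hs1 hs2 using hst
  have hinj : Function.Injective (fun i : Fin (L'.length + 1) => s i.val) := by
    intro i j hij
    have aux : ∀ i j : ℕ, i < j → j ≤ L'.length → s i ≠ s j := by
      intro i j hij hj he
      have h1 : M.Run q (L'.take i ++ L'.drop j) q' := by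
        rw [M.run_append]
        exact ⟨s i, hs1 i, he ▸ hs2 j⟩
      have h2 : (L'.take i ++ L'.drop j).length < Nat.find hex := by
        rw [List.length_append, List.length_take, List.length_drop]
        omega
      refine Nat.find_min hex h2 ⟨_, rfl, h1, ?_⟩
      intro ℓ hℓ
      rw [List.mem_append] at hℓ
      rcases hℓ with hℓ | hℓ
      · exact hsub _ (List.mem_of_mem_take hℓ)
      · exact hsub _ (List.mem_of_mem_drop hℓ)
    rcases lt_trichotomy i.val j.val with h5 | h5 | h5
    · exact absurd hij (aux _ _ h5 (by have := j.isLt; omega))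
    · exact Fin.ext h5
    · exact absurd hij.symm (aux _ _ h5 (by have := i.isLt; omega))
  have := Fintype.card_le_of_injective _ hinj
  rw [Fintype.card_fin] at this
  omega

theorem NBP.Acc.shorten [Fintype Q] {M : NBP X Q} {op : X → X → X} {L : List (Lab X)}
    (hL : M.Acc op L) : ∃ L', M.Acc op L' ∧ L'.length ≤ Fintype.card Q := by
  obtain ⟨⟨f, hrun, hf⟩, hc⟩ := hL
  obtain ⟨L', h1, h2, h3⟩ := M.shorten hrun
  exact ⟨L', ⟨⟨f, h1, hf⟩, fun x y z hz => hc x y z (h3 _ hz)⟩, h2⟩

open Classical in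
/-- an operation on `Y` carried over to `X`; other products are `g` -/
noncomputable def extOp (e : Y → X) (g : X) (op : Y → Y → Y) (x y : X) : X :=
  if hxy : (∃ x', e x' = x) ∧ (∃ y', e y' = y) then e (op hxy.1.choose hxy.2.choose) else g

theorem extOp_range {e : Y → X} (he : Function.Injective e) {g : X} {op : Y → Y → Y} (x y : Y) :
    extOp e g op (e x) (e y) = e (op x y) := by
  unfold extOp
  have hxy : (∃ x', e x' = e x) ∧ (∃ y', e y' = e y) := ⟨⟨x, rfl⟩, y, rfl⟩
  rw [dif_pos hxy, he hxy.1.choose_spec, he hxy.2.choose_spec]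

theorem extOp_not {e : Y → X} {g : X} {op : Y → Y → Y} {x y : X}
    (hxy : ¬ ((∃ x', e x' = x) ∧ (∃ y', e y' = y))) : extOp e g op x y = g := by
  unfold extOp
  rw [dif_neg hxy]

theorem gen_extOp {e : Y → X} (he : Function.Injective e) {g : Y} {op : Y → Y → Y} (x : Y) :
    Gen (extOp e (e g) op) (e g) (e x) ↔ Gen op g x := by
  constructor
  · intro hx
    have key : ∀ z, Gen (extOp e (e g) op) (e g) z → ∃ z', e z' = z ∧ Gen op g z' := by
      intro z hz
      induction hz with
      | base => exact ⟨g, rfl, Gen.base⟩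
      | mul _ _ ih1 ih2 =>
        obtain ⟨x', rfl, h1⟩ := ih1
        obtain ⟨y', rfl, h2⟩ := ih2
        exact ⟨op x' y', (extOp_range he _ _).symm, Gen.mul h1 h2⟩
    obtain ⟨z', h1, h2⟩ := key _ hx
    rwa [← he h1]
  · intro hx
    induction hx with
    | base => exact Gen.base
    | mul _ _ ih1 ih2 =>
      rw [← extOp_range he (g := e g)]
      exact Gen.mul ih1 ih2

/-- the program on `Y` obtained from a program on `X` -/
def NBP.restrict (M : NBP X Q) (e : Y → X) (g : Y) : NBP Y Q where
  start := M.start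
  acc := M.acc
  edge q ℓ q' := match ℓ with
    | none => M.edge q none q' ∨ ∃ x y, ¬ ((∃ x', e x' = x) ∧ (∃ y', e y' = y)) ∧
        M.edge q (some (x, y, e g)) q'
    | some (x, y, z) => M.edge q (some (e x, e y, e z)) q'

theorem restrict_run (M : NBP X Q) {e : Y → X} (he : Function.Injective e) {g : Y}
    {op : Y → Y → Y} {q' : Q} : ∀ (L : List (Lab Y)) (q : Q), (M.restrict e g).Run q L q' →
    (∀ x y z, some (x, y, z) ∈ L → op x y = z) →
    ∃ L', M.Run q L' q' ∧ (∀ x y z, some (x, y, z) ∈ L' → extOp e (e g) op x y = z) ∧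
      (∀ x y z, some (x, y, z) ∈ L → some (e x, e y, e z) ∈ L') := by
  intro L
  induction L with
  | nil => intro q h1 _; exact ⟨[], h1, by simp, by simp⟩
  | cons ℓ L ih =>
    rintro q ⟨r, h1, h2⟩ hc
    obtain ⟨L', h3, h4, h5⟩ := ih r h2 (fun x y z hz => hc x y z (List.mem_cons_of_mem _ hz))
    rcases ℓ with _ | ⟨x, y, z⟩
    · rcases h1 with h1 | ⟨x, y, hxy, h1⟩
      · refine ⟨none :: L', ⟨r, h1, h3⟩, ?_, ?_⟩
        · intro x y z hz
          rw [List.mem_cons] at hz
          rcases hz with hz | hz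
          · exact absurd hz (by simp)
          · exact h4 x y z hz
        · intro x y z hz
          rw [List.mem_cons] at hz
          rcases hz with hz | hz
          · exact absurd hz (by simp)
          · exact List.mem_cons_of_mem _ (h5 x y z hz)
      · refine ⟨some (x, y, e g) :: L', ⟨r, h1, h3⟩, ?_, ?_⟩
        · intro x' y' z' hz
          rw [List.mem_cons] at hz
          rcases hz with hz | hz
          · rw [Option.some.injEq, Prod.mk.injEq, Prod.mk.injEq] at hz
            obtain ⟨rfl, rfl, rfl⟩ := hz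
            exact extOp_not hxy
          · exact h4 _ _ _ hz
        · intro x' y' z' hz
          rw [List.mem_cons] at hz
          rcases hz with hz | hz
          · exact absurd hz (by simp)
          · exact List.mem_cons_of_mem _ (h5 _ _ _ hz)
    · refine ⟨some (e x, e y, e z) :: L', ⟨r, h1, h3⟩, ?_, ?_⟩
      · intro x' y' z' hz
        rw [List.mem_cons] at hz
        rcases hz with hz | hz
        · rw [Option.some.injEq, Prod.mk.injEq, Prod.mk.injEq] at hz
          obtain ⟨rfl, rfl, rfl⟩ := hz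
          rw [extOp_range he, hc x y z (List.mem_cons_self ..)]
        · exact h4 _ _ _ hz
      · intro x' y' z' hz
        rw [List.mem_cons] at hz
        rcases hz with hz | hz
        · rw [Option.some.injEq, Prod.mk.injEq, Prod.mk.injEq] at hz
          obtain ⟨rfl, rfl, rfl⟩ := hz
          exact List.mem_cons_self ..
        · exact List.mem_cons_of_mem _ (h5 _ _ _ hz)

theorem run_restrict (M : NBP X Q) {e : Y → X} (he : Function.Injective e) {g : Y}
    {op : Y → Y → Y} {q' : Q} : ∀ (L : List (Lab X)) (q : Q), M.Run q L q' →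
    (∀ x y z, some (x, y, z) ∈ L → extOp e (e g) op x y = z) →
    ∃ L', (M.restrict e g).Run q L' q' ∧ (∀ x y z, some (x, y, z) ∈ L' → op x y = z) ∧
      L'.length = L.length := by
  intro L
  induction L with
  | nil => intro q h1 _; exact ⟨[], h1, by simp, rfl⟩
  | cons ℓ L ih =>
    rintro q ⟨r, h1, h2⟩ hc
    obtain ⟨L', h3, h4, h5⟩ := ih r h2 (fun x y z hz => hc x y z (List.mem_cons_of_mem _ hz))
    have hnone : M.edge q none r ∨ (∃ x y, ¬ ((∃ x', e x' = x) ∧ (∃ y', e y' = y)) ∧
        M.edge q (some (x, y, e g)) r) → ∃ L', (M.restrict e g).Run q L' q' ∧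
        (∀ x y z, some (x, y, z) ∈ L' → op x y = z) ∧ L'.length = (ℓ :: L).length := by
      intro h6
      refine ⟨none :: L', ⟨r, h6, h3⟩, ?_, by simp [h5]⟩
      intro x' y' z' hz
      rw [List.mem_cons] at hz
      rcases hz with hz | hz
      · exact absurd hz (by simp)
      · exact h4 _ _ _ hz
    rcases ℓ with _ | ⟨x, y, z⟩
    · exact hnone (Or.inl h1)
    · have hz := hc x y z (List.mem_cons_self ..)
      by_cases hxy : (∃ x', e x' = x) ∧ (∃ y', e y' = y)
      · obtain ⟨⟨x', rfl⟩, y', rfl⟩ := hxy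
        rw [extOp_range he] at hz
        refine ⟨some (x', y', op x' y') :: L', ⟨r, ?_, h3⟩, ?_, by simp [h5]⟩
        · change M.edge q (some (e x', e y', e (op x' y'))) r
          rw [hz]; exact h1
        · intro a b c hm
          rw [List.mem_cons] at hm
          rcases hm with hm | hm
          · rw [Option.some.injEq, Prod.mk.injEq, Prod.mk.injEq] at hm
            obtain ⟨rfl, rfl, rfl⟩ := hm
            rfl
          · exact h4 _ _ _ hm
      · rw [extOp_not hxy] at hz
        refine hnone (Or.inr ⟨x, y, hxy, ?_⟩)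
        rw [hz]; exact h1

theorem restrict_acc {M : NBP X Q} {e : Y → X} (he : Function.Injective e) {g : Y}
    {op : Y → Y → Y} {L : List (Lab Y)} (hL : (M.restrict e g).Acc op L) :
    ∃ L', M.Acc (extOp e (e g) op) L' ∧
      (∀ x y z, some (x, y, z) ∈ L → some (e x, e y, e z) ∈ L') := by
  obtain ⟨⟨f, hrun, hf⟩, hc⟩ := hL
  obtain ⟨L', h1, h2, h3⟩ := restrict_run M he L _ hrun hc
  exact ⟨L', ⟨⟨f, h1, hf⟩, h2⟩, h3⟩

theorem acc_restrict {M : NBP X Q} {e : Y → X} (he : Function.Injective e) {g : Y}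
    {op : Y → Y → Y} {L : List (Lab X)} (hL : M.Acc (extOp e (e g) op) L) :
    ∃ L', (M.restrict e g).Acc op L' ∧ L'.length = L.length := by
  obtain ⟨⟨f, hrun, hf⟩, hc⟩ := hL
  obtain ⟨L', h1, h2, h3⟩ := run_restrict M he L _ hrun hc
  exact ⟨L', ⟨⟨f, h1, hf⟩, h2⟩, h3⟩

theorem restrict_wrong [Finite X] {e : Y → X} (he : Function.Injective e) {g : Y}
    {op : Y → Y → Y} {L : List (Lab Y)} {L' : List (Lab X)}
    (hLL : ∀ x y z, some (x, y, z) ∈ L → some (e x, e y, e z) ∈ L') :
    (wrong op g L).ncard ≤ (wrong (extOp e (e g) op) (e g) L').ncard := by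
  refine Set.ncard_le_ncard_of_injOn (fun v => (e v.1, e v.2)) ?_ ?_ (Set.toFinite _)
  · rintro ⟨x, y⟩ ⟨⟨z, hz⟩, hn⟩
    refine ⟨⟨e z, hLL x y z hz⟩, ?_⟩
    simp only [gen_extOp he]
    exact hn
  · rintro ⟨x, y⟩ _ ⟨x', y'⟩ _ hh
    simp only [Prod.mk.injEq] at hh
    rw [he hh.1, he hh.2]

/-- There is an embedding with two prescribed values. -/
theorem exists_emb [Fintype X] [Fintype Y] (hc : Fintype.card Y ≤ Fintype.card X) {g t : Y}
    (hgt : g ≠ t) {g' t' : X} (hgt' : g' ≠ t') :
    ∃ e : Y → X, Function.Injective e ∧ e g = g' ∧ e t = t' := by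
  classical
  obtain ⟨e0⟩ := Function.Embedding.nonempty_of_card_le hc
  let e1 : Y → X := fun y => Equiv.swap (e0 g) g' (e0 y)
  have h1 : Function.Injective e1 := (Equiv.injective _).comp e0.injective
  have h2 : e1 g = g' := Equiv.swap_apply_left _ _
  refine ⟨fun y => Equiv.swap (e1 t) t' (e1 y), (Equiv.injective _).comp h1, ?_,
    Equiv.swap_apply_left _ _⟩
  change Equiv.swap (e1 t) t' (e1 g) = g'
  rw [h2]
  refine Equiv.swap_apply_of_ne_of_ne ?_ hgt'
  intro h3
  exact hgt (h1 (h2.trans h3))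

end Pool.Agent.Thrift
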