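import Mathlib

/-!
# The generation problem and nondeterministic branching programs
-/

set_option autoImplicit false

namespace Pool.Agent.Thrift

/-- The set generated by `g` under the binary operation `op`. -/
inductive Gen {X : Type} (op : X → X → X) (g : X) : X → Prop
  | base : Gen op g g
  | mul {x y : X} : Gen op g x → Gen op g y → Gen op g (op x y)

/-- A nondeterministic branching program with the states `Q` whose input is a binary operation on
`X`. `edge q none q'` is a free move from `q` to `q'`; `edge q (some (x, y, z)) q'` is a move which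
queries the product of `x` and `y` and is possible if this product is `z`. -/
structure NBP (X Q : Type) where
  start : Q
  acc : Q → Prop
  edge : Q → Option (X × X × X) → Q → Prop

variable {X Q : Type}

/-- `M.Run q L q'`: moves with the labels `L` lead from `q` to `q'`. -/
def NBP.Run (M : NBP X Q) : Q → List (Option (X × X × X)) → Q → Prop
  | q, [], q' => q = q'
  | q, ℓ :: L, q' => ∃ r, M.edge q ℓ r ∧ M.Run r L q'

/-- `L` is (the list of labels of) an accepting computation for the input `op`. -/
def NBP.Acc (M : NBP X Q) (op : X → X → X) (L : List (Option (X × X × X))) : Prop :=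
  (∃ q, M.Run M.start L q ∧ M.acc q) ∧ ∀ x y z, some (x, y, z) ∈ L → op x y = z

/-- `M` accepts exactly the operations for which `t` is in the set generated by `g`. -/
def NBP.Solves (M : NBP X Q) (g t : X) : Prop :=
  ∀ op : X → X → X, (∃ L, M.Acc op L) ↔ Gen op g t

/-- The wrong queries of a computation: the queries of products of two elements which are not
both generated. -/
def wrong (op : X → X → X) (g : X) (L : List (Option (X × X × X))) : Set (X × X) :=
  {v | (∃ z, some (v.1, v.2, z) ∈ L) ∧ ¬ (Gen op g v.1 ∧ Gen op g v.2)}

theorem NBP.run_append (M : NBP X Q) {L L' : List (Option (X × X × X))} {q q' : Q} :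
    M.Run q (L ++ L') q' ↔ ∃ r, M.Run q L r ∧ M.Run r L' q' := by
  induction L generalizing q with
  | nil => simp [NBP.Run]
  | cons ℓ L ih =>
    simp only [List.cons_append, NBP.Run]
    constructor
    · rintro ⟨r, h1, h2⟩
      obtain ⟨r', h3, h4⟩ := ih.1 h2
      exact ⟨r', ⟨r, h1, h3⟩, h4⟩
    · rintro ⟨r', ⟨r, h1, h3⟩, h4⟩
      exact ⟨r, h1, ih.2 ⟨r', h3, h4⟩⟩

end Pool.Agent.Thrift
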