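import Pool.Agent.Thrift.Defs
import Pool.Agent.Thrift.Pyr

/-!
# The inputs used in the lower bound
-/

set_option autoImplicit false

namespace Pool.Agent.Thrift

/-- Elements: constants `c 0, …, c (h + 1)` and the values `x` at the nodes `v`. -/
inductive El (h : ℕ) (K : Type)
  | c (j : Fin (h + 2))
  | val (v : Nd h) (x : K)

variable {h : ℕ} {K : Type}

open Classical in
noncomputable instance : DecidableEq (El h K) := fun _ _ => propDecidable _

/-- the generator -/
def El.g : El h K := .c 0

/-- products of constants -/
def chain : El h K → El h K → El h K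
  | .c i, .c j => if hi : j.val = 0 ∧ i.val + 1 < h + 2 then .c ⟨i.val + 1, hi.2⟩ else .c 0
  | _, _ => .c 0

/-- the node whose value is given by a product -/
def node : El h K → El h K → Option (Nd h)
  | .c i, .c j => if hj : i.val = 0 ∧ j.val ≠ 0 then some ⟨0, j.val - 1, by have := j.isLt; omega⟩
      else none
  | .val u _, .val u' _ => if hu : u'.i = u.i ∧ u'.j = u.j + 1 then
      some ⟨u.i + 1, u.j, by have := u'.le; omega⟩ else none
  | _, _ => none

/-- the product which gives the value at `v` if the labeling is `a` -/
def var (a : Nd h → K) (v : Nd h) : El h K × El h K :=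
  if v.i = 0 then (.c 0, .c ⟨v.j + 1, by have := v.le; omega⟩)
  else (.val v.l (a v.l), .val v.r (a v.r))

theorem node_var (a : Nd h → K) (v : Nd h) : node (var a v).1 (var a v).2 = some v := by
  unfold var
  split_ifs with hv
  · simp only [node]
    rw [dif_pos (by simp)]
    congr 1
    ext
    · exact hv.symm
    · simp
  · simp only [node]
    rw [dif_pos (by simp [Nd.l, Nd.r, hv])]
    congr 1
    ext
    · simp only [Nd.l]; omega
    · simp [Nd.l]

theorem node_eq {x y : El h K} {v : Nd h} (hn : node x y = some v) :
    (v.i = 0 ∧ ∀ a, (x, y) = var a v) ∨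
      (v.i ≠ 0 ∧ ∃ p q, x = .val v.l p ∧ y = .val v.r q) := by
  unfold node at hn
  split at hn
  · rename_i i j
    split_ifs at hn with hj
    rw [Option.some.injEq] at hn
    left
    subst hn
    refine ⟨rfl, fun a => ?_⟩
    unfold var
    rw [if_pos rfl, Prod.mk.injEq]
    constructor
    · congr 1
      exact Fin.ext hj.1
    · congr 1
      apply Fin.ext
      simp only
      omega
  · rename_i u p u' q
    split_ifs at hn with hj
    rw [Option.some.injEq] at hn
    right
    subst hn
    refine ⟨by simp, p, q, ?_, ?_⟩
    · congr 1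
    · congr 1
      ext
      · simp only [Nd.r]; omega
      · simp only [Nd.r]; rw [if_neg (by omega)]; omega
  · exact absurd hn (by simp)

theorem var_inj {a : Nd h → K} {v v' : Nd h} (hv : var a v = var a v') : v = v' := by
  have h1 := node_var a v
  have h2 := node_var a v'
  rw [hv, h2] at h1
  exact (Option.some.inj h1).symm

open Classical in
/-- the operation: the value at `v` is given by the products in `P v`, other products are trivial -/
noncomputable def opP (P : Nd h → El h K × El h K → Prop) (a : Nd h → K) (x y : El h K) :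
    El h K :=
  match node x y with
  | some v => if P v (x, y) then .val v (a v) else .c 0
  | none => chain x y

/-- the input for the labeling `a` -/
noncomputable def opA (a : Nd h → K) : El h K → El h K → El h K := opP (fun v p => p = var a v) a

theorem opP_some {P : Nd h → El h K × El h K → Prop} {a : Nd h → K} {x y : El h K} {v : Nd h}
    (hn : node x y = some v) (hP : P v (x, y)) : opP P a x y = .val v (a v) := by
  unfold opP; rw [hn]; simp only; rw [if_pos hP]

theorem opP_some' {P : Nd h → El h K × El h K → Prop} {a : Nd h → K} {x y : El h K} {v : Nd h}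
    (hn : node x y = some v) (hP : ¬ P v (x, y)) : opP P a x y = .c 0 := by
  unfold opP; rw [hn]; simp only; rw [if_neg hP]

theorem opP_none {P : Nd h → El h K × El h K → Prop} {a : Nd h → K} {x y : El h K}
    (hn : node x y = none) : opP P a x y = chain x y := by
  unfold opP; rw [hn]

theorem chain_c (x y : El h K) : ∃ j, chain x y = .c j := by
  unfold chain
  split
  · split_ifs
    · exact ⟨_, rfl⟩
    · exact ⟨_, rfl⟩
  · exact ⟨_, rfl⟩

/-- `x` is a constant or the right value at its node, if `S` holds there -/
def GA (a : Nd h → K) (S : Nd h → Prop) : El h K → Prop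
  | .c _ => True
  | .val v x => x = a v ∧ S v

theorem gen_sub {P : Nd h → El h K × El h K → Prop} {a : Nd h → K} {S : Nd h → Prop}
    (hS : ∀ (v : Nd h) x y, node x y = some v → P v (x, y) → GA a S x → GA a S y → S v)
    {x : El h K} (hx : Gen (opP P a) El.g x) : GA a S x := by
  induction hx with
  | base => exact trivial
  | @mul x y hx hy ihx ihy =>
    rcases hn : node x y with _ | v
    · rw [opP_none hn]
      obtain ⟨j, hj⟩ := chain_c x y
      rw [hj]; exact trivial
    · by_cases hP : P v (x, y)
      · rw [opP_some hn hP]
        exact ⟨rfl, hS v x y hn hP ihx ihy⟩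
      · rw [opP_some' hn hP]
        exact trivial

theorem gen_c (P : Nd h → El h K × El h K → Prop) (a : Nd h → K) :
    ∀ (n : ℕ) (hn : n < h + 2), Gen (opP P a) El.g (.c ⟨n, hn⟩)
  | 0, _ => Gen.base
  | n + 1, hn => by
    have h1 := gen_c P a n (by omega)
    have h2 := Gen.mul h1 (Gen.base (op := opP P a) (g := El.g))
    have h3 : node (El.c ⟨n, by omega⟩ : El h K) El.g = none := by
      simp [node, El.g]
    rw [opP_none h3] at h2
    have h4 : chain (El.c ⟨n, by omega⟩ : El h K) El.g = .c ⟨n + 1, hn⟩ := by
      simp only [chain, El.g]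
      rw [dif_pos ⟨by simp, by simpa using hn⟩]
    rwa [h4] at h2

theorem gen_val (a : Nd h → K) : ∀ (n : ℕ) (v : Nd h), v.i ≤ n →
    Gen (opA a) El.g (.val v (a v)) := by
  intro n
  induction n with
  | zero =>
    intro v hv
    have h1 : var a v = (.c 0, .c ⟨v.j + 1, by have := v.le; omega⟩) := by
      unfold var; rw [if_pos (by omega)]
    have h2 : opA a (var a v).1 (var a v).2 = .val v (a v) := opP_some (node_var a v) rfl
    rw [← h2, h1]
    exact Gen.mul Gen.base (gen_c _ _ _ _)
  | succ n ih =>
    intro v hv
    by_cases hv0 : v.i = 0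
    · exact ih v (by omega)
    · have h1 : var a v = (.val v.l (a v.l), .val v.r (a v.r)) := by
        unfold var; rw [if_neg hv0]
      have h2 : opA a (var a v).1 (var a v).2 = .val v (a v) := opP_some (node_var a v) rfl
      rw [← h2, h1]
      refine Gen.mul (ih _ ?_) (ih _ ?_)
      · simp only [Nd.l]; omega
      · simp only [Nd.r]; omega

theorem gen_opA {a : Nd h → K} {x : El h K} :
    Gen (opA a) El.g x ↔ GA a (fun _ => True) x := by
  constructor
  · exact gen_sub (fun _ _ _ _ _ _ _ => trivial)
  · intro hx
    cases x with
    | c j => exact gen_c _ _ _ _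
    | val v x =>
      obtain ⟨rfl, -⟩ := hx
      exact gen_val a _ v le_rfl

theorem gen_var (a : Nd h → K) (v : Nd h) :
    Gen (opA a) El.g (var a v).1 ∧ Gen (opA a) El.g (var a v).2 := by
  rw [gen_opA, gen_opA]
  unfold var
  split_ifs
  · exact ⟨trivial, trivial⟩
  · exact ⟨⟨rfl, trivial⟩, rfl, trivial⟩

/-- If the elements of a product belonging to the node `v` are generated under `opA a`, then it is
the right product. -/
theorem eq_var {a : Nd h → K} {x y : El h K} {v : Nd h} (hn : node x y = some v)
    (hx : Gen (opA a) El.g x) (hy : Gen (opA a) El.g y) : (x, y) = var a v := by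
  rcases node_eq hn with ⟨_, h2⟩ | ⟨hv, p, q, rfl, rfl⟩
  · exact h2 a
  · rw [gen_opA] at hx hy
    obtain ⟨rfl, -⟩ := hx
    obtain ⟨rfl, -⟩ := hy
    unfold var; rw [if_neg hv]

end Pool.Agent.Thrift
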