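import Pool.Agent.Thrift.Swap

/-!
# Every node is queried, and computations give pebblings
-/

set_option autoImplicit false

namespace Pool.Agent.Thrift

variable {h : ℕ} {K Q : Type}

theorem cover (M : NBP (El h K) Q) {x0 : K}
    (hM : ∀ op L, M.Acc op L → Gen op El.g (.val (root h) x0)) {a : Nd h → K}
    {L : List (Lab (El h K))} (hL : M.Acc (opA a) L) (v0 : Nd h) : v0 ∈ NN a L := by
  by_contra hv0
  set P : Nd h → El h K × El h K → Prop := fun v p => v ≠ v0 ∧ p = var a v with hP
  have hacc : M.Acc (opP P a) L := by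
    refine ⟨hL.1, ?_⟩
    intro x y z hz
    rw [← hL.2 x y z hz]
    rcases hn : node x y with _ | v
    · rw [opP_none hn]
      exact (opP_none hn).symm
    · by_cases hv : (x, y) = var a v
      · have hvv : v ≠ v0 := by
          rintro rfl
          apply hv0
          rw [mem_NN, ← hv]
          exact ⟨z, hz⟩
        rw [opP_some hn ⟨hvv, hv⟩]
        exact (opP_some hn hv).symm
      · rw [opP_some' hn (fun h5 => hv h5.2)]
        exact (opP_some' hn hv).symm
  have h1 := gen_sub (S := fun v => ¬ cone v0 v) ?_ (hM _ _ hacc)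
  · exact h1.2 (cone_root v0)
  · intro v x y hn hPv hx hy hc
    obtain ⟨hvv, hv⟩ := hPv
    rcases cone_cases hc with h2 | ⟨h2, h3⟩
    · exact hvv h2.symm
    · unfold var at hv
      rw [if_neg h2, Prod.mk.injEq] at hv
      rw [hv.1] at hx
      rw [hv.2] at hy
      rcases h3 with h3 | h3
      · exact hx.2 h3
      · exact hy.2 h3

theorem NN_append (a : Nd h → K) (L L' : List (Lab (El h K))) :
    NN a (L ++ L') = NN a L ∪ NN a L' := by
  ext v
  simp only [mem_NN, Finset.mem_union, List.mem_append]
  constructor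
  · rintro ⟨z, hz | hz⟩
    · exact Or.inl ⟨z, hz⟩
    · exact Or.inr ⟨z, hz⟩
  · rintro (⟨z, hz⟩ | ⟨z, hz⟩)
    · exact ⟨z, Or.inl hz⟩
    · exact ⟨z, Or.inr hz⟩

theorem rec_can {a : Nd h → K} {L : List (Lab (El h K))} {B : ℕ}
    (hB : ∀ L2, L2 <:+: L → (EE a L2).card ≤ B) :
    ∀ (r : ℕ) (L2 : List (Lab (El h K))), L2 <:+: L → L2.length ≤ 2 ^ r → ∀ v ∈ NN a L2,
      ∀ A : Finset (Nd h), (∀ u ∈ EE a L2, cone u v → u ∈ A) → Can (2 * B * r) A v := by
  intro r
  induction r with
  | zero =>
    intro L2 _ hlen v hv A hA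
    refine Can.base _ _ _ fun u hu => ?_
    refine hA u ?_ (ch_cone hu)
    rw [mem_EE]
    refine ⟨⟨v, hv, hu⟩, fun hu2 => ?_⟩
    rw [mem_NN] at hv hu2
    obtain ⟨z, hz⟩ := hv
    obtain ⟨z', hz'⟩ := hu2
    have h1 : L2.length ≤ 1 := by simpa using hlen
    match L2, h1, hz, hz' with
    | [ℓ], _, hz, hz' =>
      rw [List.mem_singleton] at hz hz'
      have h2 : some ((var a v).1, (var a v).2, z) = some ((var a u).1, (var a u).2, z') := by
        rw [hz, hz']
      rw [Option.some.injEq, Prod.mk.injEq, Prod.mk.injEq] at h2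
      have h3 : v = u := var_inj (Prod.ext h2.1 h2.2.1)
      have := ch_i hu
      rw [h3] at this
      omega
  | succ r ih =>
    intro L2 hin hlen v hv A hA
    set W1 := L2.take (2 ^ r) with hW1
    set W2 := L2.drop (2 ^ r) with hW2
    have hW : L2 = W1 ++ W2 := (List.take_append_drop _ _).symm
    have hl1 : W1.length ≤ 2 ^ r := by rw [hW1, List.length_take]; omega
    have hl2 : W2.length ≤ 2 ^ r := by
      rw [hW2, List.length_drop]
      rw [pow_succ] at hlen
      omega
    have hi1 : W1 <:+: L := (List.take_prefix _ _).isInfix.trans hin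
    have hi2 : W2 <:+: L := (List.drop_suffix _ _).isInfix.trans hin
    have hN : NN a L2 = NN a W1 ∪ NN a W2 := by
      conv_lhs => rw [hW]
      exact NN_append _ _ _
    classical
    set X : Finset (Nd h) := ((EE a W1 ∩ NN a W2) ∪ (EE a W2 ∩ NN a W1)).filter
      (fun u => cone u v) with hX
    have hXc : X.card ≤ 2 * B := by
      calc X.card ≤ ((EE a W1 ∩ NN a W2) ∪ (EE a W2 ∩ NN a W1)).card := Finset.card_filter_le _ _
        _ ≤ (EE a W1 ∩ NN a W2).card + (EE a W2 ∩ NN a W1).card := Finset.card_union_le _ _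
        _ ≤ (EE a W1).card + (EE a W2).card :=
          Nat.add_le_add (Finset.card_le_card Finset.inter_subset_left)
            (Finset.card_le_card Finset.inter_subset_left)
        _ ≤ 2 * B := by have := hB W1 hi1; have := hB W2 hi2; omega
    -- the key step
    have key : ∀ u ∈ NN a L2, cone u v → ∀ A' : Finset (Nd h), A ⊆ A' →
        (∀ y ∈ X, y.i < u.i → y ∈ A') → Can (2 * B * r) A' u := by
      intro u hu huv A' hAA hXA
      have aux : ∀ W W' : List (Lab (El h K)), W <:+: L → W.length ≤ 2 ^ r → u ∈ NN a W →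
          NN a L2 = NN a W ∪ NN a W' → (∀ y, y ∈ EE a W → y ∈ NN a W' → cone y v → y ∈ X) →
          Can (2 * B * r) A' u := by
        intro W W' hWi hWl huW hNN hXX
        refine ih W hWi hWl u huW A' fun y hy hyu => ?_
        have hy' := mem_EE.1 hy
        by_cases hyW : y ∈ NN a W'
        · refine hXA y (hXX y hy hyW (cone_trans hyu huv)) ?_
          by_contra hcon
          have : y = u := by
            unfold cone at hyu
            ext <;> omega
          exact hy'.2 (this ▸ huW)
        · refine hAA (hA y ?_ (cone_trans hyu huv))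
          rw [mem_EE, hNN]
          obtain ⟨⟨v', hv', hyv'⟩, hyn⟩ := hy'
          refine ⟨⟨v', Finset.mem_union_left _ hv', hyv'⟩, ?_⟩
          rw [Finset.mem_union]
          rintro (h5 | h5)
          · exact hyn h5
          · exact hyW h5
      rw [hN, Finset.mem_union] at hu
      rcases hu with hu | hu
      · refine aux W1 W2 hi1 hl1 hu hN fun y hy1 hy2 hy3 => ?_
        rw [hX, Finset.mem_filter, Finset.mem_union, Finset.mem_inter]
        exact ⟨Or.inl ⟨hy1, hy2⟩, hy3⟩
      · refine aux W2 W1 hi2 hl2 hu (by rw [hN, Finset.union_comm]) fun y hy1 hy2 hy3 => ?_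
        rw [hX, Finset.mem_filter, Finset.mem_union, Finset.mem_inter, Finset.mem_inter]
        exact ⟨Or.inr ⟨hy1, hy2⟩, hy3⟩
    have hseq : Can (2 * B * r + X.card) A v := by
      refine Can.seq X A ?_ ?_
      · intro u hu
        have hu' := hu
        rw [hX, Finset.mem_filter, Finset.mem_union, Finset.mem_inter, Finset.mem_inter] at hu'
        refine key u ?_ hu'.2 _ Finset.subset_union_left ?_
        · rw [hN, Finset.mem_union]
          rcases hu'.1 with h5 | h5
          · exact Or.inr h5.2
          · exact Or.inl h5.2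
        · intro y hy hyi
          exact Finset.mem_union_right _ (Finset.mem_filter.2 ⟨hy, hyi⟩)
      · refine key v hv (by unfold cone; omega) _ Finset.subset_union_left ?_
        intro y hy _
        exact Finset.mem_union_right _ hy
    refine hseq.mono ?_ (Finset.Subset.refl _)
    rw [Nat.mul_succ]
    omega

/-- A computation in which all windows have few missing children is long. -/
theorem exists_window (M : NBP (El h K) Q) {x0 : K}
    (hM : ∀ op L, M.Acc op L → Gen op El.g (.val (root h) x0)) {a : Nd h → K}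
    {L : List (Lab (El h K))} (hL : M.Acc (opA a) L) {b r : ℕ} (hlen : L.length ≤ 2 ^ r)
    (hbr : 2 * b * r < h) : ∃ L2, L2 <:+: L ∧ b < (EE a L2).card := by
  by_contra hcon
  push Not at hcon
  have h1 := rec_can (B := b) hcon r L (List.infix_rfl) hlen (root h) (cover M hM hL _) ∅ ?_
  · have := can_root h1
    omega
  · intro u hu
    exact absurd (cover M hM hL u) (mem_EE.1 hu).2

end Pool.Agent.Thrift
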