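import Pool.Agent.Thrift.Ops

/-!
# Exchanging windows of two computations
-/

set_option autoImplicit false

namespace Pool.Agent.Thrift

variable {h : ℕ} {K Q : Type}

/-- the labels of computations -/
abbrev Lab (X : Type) := Option (X × X × X)

open Classical in
/-- the nodes whose right product is queried in `L` -/
noncomputable def NN (a : Nd h → K) (L : List (Lab (El h K))) : Finset (Nd h) :=
  Finset.univ.filter fun v => ∃ z, some ((var a v).1, (var a v).2, z) ∈ L

/-- the children of nodes in `NN a L` which are not in `NN a L` -/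
noncomputable def EE (a : Nd h → K) (L : List (Lab (El h K))) : Finset (Nd h) :=
  (NN a L).biUnion Nd.ch \ NN a L

theorem mem_NN {a : Nd h → K} {L : List (Lab (El h K))} {v : Nd h} :
    v ∈ NN a L ↔ ∃ z, some ((var a v).1, (var a v).2, z) ∈ L := by
  simp [NN]

theorem mem_EE {a : Nd h → K} {L : List (Lab (El h K))} {u : Nd h} :
    u ∈ EE a L ↔ (∃ v ∈ NN a L, u ∈ v.ch) ∧ u ∉ NN a L := by
  simp [EE]

theorem card_ch (v : Nd h) : v.ch.card ≤ 2 := by
  unfold Nd.ch
  split_ifs
  · simp
  · exact Finset.card_le_two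

/-- The exchange lemma. -/
theorem swap [Finite K] (M : NBP (El h K) Q) {w : ℕ}
    (hw : ∀ op L, M.Acc op L → (wrong op El.g L).ncard ≤ w)
    {a a' : Nd h → K} {L1 L2 L3 L1' L2' L3' : List (Lab (El h K))} {q q' f : Q}
    (h1 : M.Run M.start L1 q) (h3 : M.Run q' L3 f) (hf : M.acc f)
    (h2' : M.Run q L2' q')
    (hc : ∀ x y z, some (x, y, z) ∈ L1 ++ L2 ++ L3 → opA a x y = z)
    (hc' : ∀ x y z, some (x, y, z) ∈ L1' ++ L2' ++ L3' → opA a' x y = z)
    (hR : wrong (opA a) El.g (L1 ++ L2 ++ L3) = wrong (opA a') El.g (L1' ++ L2' ++ L3'))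
    {E' : Finset (Nd h)} (hE : E' ⊆ EE a' L2') (haa : ∀ u, u ∉ E' → a u = a' u)
    (D : Finset (Nd h)) (hD : ∀ u ∈ D, u ∈ E' ∧ a u ≠ a' u) :
    D.card ≤ 2 * w := by
  classical
  set P : Nd h → El h K × El h K → Prop := fun v p => p = var a v ∨ (v ∉ E' ∧ p = var a' v)
    with hP
  have hkey : ∀ {b b' : Nd h → K} {L L' : List (Lab (El h K))},
      wrong (opA b) El.g L = wrong (opA b') El.g L' →
      ∀ {v : Nd h} {x y z : El h K}, node x y = some v → some (x, y, z) ∈ L → (x, y) = var b' v →
      (x, y) = var b v := by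
    intro b b' L L' hLL v x y z hn hx hb'
    by_contra hb
    have hmem : (x, y) ∈ wrong (opA b) El.g L := by
      refine ⟨⟨z, hx⟩, ?_⟩
      rintro ⟨g1, g2⟩
      exact hb (eq_var hn g1 g2)
    rw [hLL] at hmem
    have h5 := gen_var b' v
    rw [← hb'] at h5
    exact hmem.2 h5
  -- the new computation
  have hacc : M.Acc (opP P a) (L1 ++ L2' ++ L3) := by
    refine ⟨⟨f, ?_, hf⟩, ?_⟩
    · rw [NBP.run_append]
      refine ⟨q', ?_, h3⟩
      rw [NBP.run_append]
      exact ⟨q, h1, h2'⟩
    · intro x y z hz
      have hout : some (x, y, z) ∈ L1 ++ L2 ++ L3 → opP P a x y = z := by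
        intro hm
        rw [← hc x y z hm]
        rcases hn : node x y with _ | v
        · rw [opP_none hn]
          exact (opP_none hn).symm
        · by_cases hv : (x, y) = var a v
          · rw [opP_some hn (Or.inl hv)]
            exact (opP_some hn hv).symm
          · have hnP : ¬ P v (x, y) := by
              rintro (h5 | ⟨-, h5⟩)
              · exact hv h5
              · exact hv (hkey hR hn hm h5)
            rw [opP_some' hn hnP]
            exact (opP_some' hn hv).symm
      rw [List.append_assoc, List.mem_append, List.mem_append] at hz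
      rcases hz with hz | hz | hz
      · exact hout (by simp [hz])
      · have hm : some (x, y, z) ∈ L1' ++ L2' ++ L3' := by simp [hz]
        rw [← hc' x y z hm]
        rcases hn : node x y with _ | v
        · rw [opP_none hn]
          exact (opP_none hn).symm
        · by_cases hv : (x, y) = var a' v
          · have hvE : v ∉ E' := by
              intro hvE
              have h6 := (mem_EE.1 (hE hvE)).2
              apply h6
              rw [mem_NN, ← hv]
              exact ⟨z, hz⟩
            rw [opP_some hn (Or.inr ⟨hvE, hv⟩), haa v hvE]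
            exact (opP_some hn hv).symm
          · have hnP : ¬ P v (x, y) := by
              rintro (h5 | ⟨-, h5⟩)
              · exact hv (hkey hR.symm hn hm h5)
              · exact hv h5
            rw [opP_some' hn hnP]
            exact (opP_some' hn hv).symm
      · exact hout (by simp [hz])
  have h5 := hw _ _ hacc
  -- the wrong queries
  set V' : Finset (Nd h) := (NN a' L2').filter (fun v => ∃ u ∈ v.ch, u ∈ D) with hV'
  have h6 : D ⊆ V'.biUnion Nd.ch := by
    intro u hu
    obtain ⟨⟨v, hv, huv⟩, -⟩ := mem_EE.1 (hE (hD u hu).1)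
    rw [Finset.mem_biUnion]
    exact ⟨v, Finset.mem_filter.2 ⟨hv, u, huv, hu⟩, huv⟩
  have h7 : D.card ≤ V'.card * 2 :=
    (Finset.card_le_card h6).trans (Finset.card_biUnion_le_card_mul _ _ _ fun v _ => card_ch v)
  have hfin : (wrong (opP P a) El.g (L1 ++ L2' ++ L3)).Finite := by
    refine Set.Finite.subset (List.finite_toSet
      ((L1 ++ L2' ++ L3).map fun l => match l with
        | some (x, y, _) => (x, y)
        | none => (El.g, El.g))) ?_
    rintro ⟨x, y⟩ ⟨⟨z, hz⟩, -⟩
    simp only [Set.mem_setOf_eq, List.mem_map]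
    exact ⟨some (x, y, z), hz, rfl⟩
  have h8 : V'.card ≤ (wrong (opP P a) El.g (L1 ++ L2' ++ L3)).ncard := by
    rw [← Set.ncard_coe_finset]
    refine Set.ncard_le_ncard_of_injOn (fun v => var a' v) ?_ ?_ hfin
    · intro v hv
      rw [Finset.mem_coe, hV', Finset.mem_filter, mem_NN] at hv
      obtain ⟨⟨z, hz⟩, u, huv, hu⟩ := hv
      refine ⟨⟨z, by simp [hz]⟩, ?_⟩
      rintro ⟨g1, g2⟩
      have g1' := gen_sub (S := fun _ => True) (fun _ _ _ _ _ _ _ => trivial) g1
      have g2' := gen_sub (S := fun _ => True) (fun _ _ _ _ _ _ _ => trivial) g2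
      obtain ⟨hv0, huv⟩ := mem_ch.1 huv
      unfold var at g1' g2'
      rw [if_neg hv0] at g1' g2'
      rcases huv with rfl | rfl
      · exact (hD _ hu).2 g1'.1.symm
      · exact (hD _ hu).2 g2'.1.symm
    · intro v _ v' _ hvv
      exact var_inj hvv
  omega

end Pool.Agent.Thrift
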