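import Pool.Agent.Thrift.Final

/-!
# Small space programs for the generation problem make many wrong queries

The generation problem GEN (given a binary operation on a finite set `X`, is `t` in the set
generated by `g`?) is complete for P. A nondeterministic branching program with `2 ^ s` states is
a nonuniform nondeterministic algorithm of space `s`. A query of the product of `x` and `y` is
wrong if `x` or `y` is not generated by `g`; programs without wrong queries are the thrifty
programs, and they contain the semantic incremental programs of Gál, Koucký and McKenzie.
-/

set_option autoImplicit false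

namespace Pool.Agent.Thrift.WrongQueriesOld

open Pool.Agent.Thrift

/-- Let `X` be a set of `m` elements and `g ≠ t` in `X`. If a nondeterministic branching program
with at most `2 ^ s` states accepts exactly the operations on `X` for which `t` is generated by
`g`, if no accepting computation makes more than `w` wrong queries, and if `2 ^ τ` is at least the
number of states or every accepted operation has an accepting computation of length at most
`2 ^ τ`, then `m ≤ 10 ^ 6 * τ ^ 4 * (s + (w + 1) * (log₂ m + 1)) ^ 3`. -/
theorem result {X Q : Type} [Fintype X] [Fintype Q] {g t : X} (hgt : g ≠ t) (M : NBP X Q)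
    (hM : M.Solves g t) (w s τ : ℕ) (hτ : 1 ≤ τ) (hs : Fintype.card Q ≤ 2 ^ s)
    (hT : Fintype.card Q ≤ 2 ^ τ ∨
      ∀ op : X → X → X, Gen op g t → ∃ L, M.Acc op L ∧ L.length ≤ 2 ^ τ)
    (hw : ∀ op L, M.Acc op L → (wrong op g L).ncard ≤ w) :
    Fintype.card X ≤
      10 ^ 6 * τ ^ 4 * (s + (w + 1) * (Nat.log 2 (Fintype.card X) + 1)) ^ 3 :=
  main hgt M hM w s τ hτ hs hT hw

end Pool.Agent.Thrift.WrongQueriesOld
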